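import Pool.Agent.H13.DEV.Targets

set_option autoImplicit false

open Polynomial NumberField IsDedekindDomain Pool.Agent.H32.QC Pool.Agent.H34.N6
  Pool.Agent.H13.DEV

namespace Pool.Agent.H17.N6E

theorem norm_ic_lt_one_iff {K : Type} [Field K] [NumberField K] (v : FPl K) (x : K) :
    ‖ic v x‖ < 1 ↔ v.valuation K x < 1 := by
  have h0 : ‖ic v x‖ < 1 ↔ Valued.v (ic v x) < 1 := Valued.toNormedField.norm_lt_one_iff
  rw [h0]
  have h : Valued.v (ic v x) = v.valuation K x := by
    exact HeightOneSpectrum.valuedAdicCompletion_eq_valuation' v x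
  rw [h]

theorem norm_ic_lt_one_iff_mem {K : Type} [Field K] [NumberField K] (v : FPl K) (a : 𝓞 K) :
    ‖ic v (algebraMap (𝓞 K) K a)‖ < 1 ↔ a ∈ v.asIdeal := by
  rw [norm_ic_lt_one_iff]
  exact HeightOneSpectrum.valuation_lt_one_iff_mem v a

theorem pf_UNQ : T_UNQ := by
  intro K _ _ w w' h
  have hle : w'.asIdeal ≤ w.asIdeal := by
    intro a ha
    rw [← norm_ic_lt_one_iff_mem] at ha ⊢
    exact h _ ha
  have hm : w'.asIdeal.IsMaximal := w'.isMaximal
  exact HeightOneSpectrum.ext (hm.eq_of_le w.isPrime.ne_top hle)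

end Pool.Agent.H17.N6E
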